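import Mathlib
import Pool.Agent.H38.HTNorm

/-!
# Isometries of Hermitian forms over a commutative ring with involution
-/

set_option autoImplicit false
open scoped Matrix
open LaurentPolynomial

namespace Pool.Agent.H38.RK

section star
variable {R : Type*} [CommRing R] (σ : R →+* R)

/-- The conjugate transpose. -/
def st {m n : Type*} (P : Matrix m n R) : Matrix n m R := (P.map σ)ᵀ

theorem st_mul {l m n : Type*} [Fintype m] (P : Matrix l m R) (Q : Matrix m n R) :
    st σ (P * Q) = st σ Q * st σ P := by
  unfold st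
  rw [Matrix.map_mul, Matrix.transpose_mul]

theorem st_one {m : Type*} [DecidableEq m] : st σ (1 : Matrix m m R) = 1 := by
  unfold st
  simp

theorem st_add {m n : Type*} (P Q : Matrix m n R) : st σ (P + Q) = st σ P + st σ Q := by
  unfold st
  ext i j
  simp

theorem st_neg {m n : Type*} (P : Matrix m n R) : st σ (-P) = -st σ P := by
  unfold st
  ext i j
  simp

theorem st_fromBlocks {l m n o : Type*} (A : Matrix n l R) (B : Matrix n m R) (C : Matrix o l R)
    (D : Matrix o m R) : st σ (Matrix.fromBlocks A B C D) =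
      Matrix.fromBlocks (st σ A) (st σ C) (st σ B) (st σ D) := by
  unfold st
  rw [Matrix.fromBlocks_map, Matrix.fromBlocks_transpose]

/-- Two square matrices are the Gram matrices of isometric forms. -/
def Isom {m n : Type*} [Fintype m] [Fintype n] [DecidableEq m] [DecidableEq n]
    (A : Matrix m m R) (B : Matrix n n R) : Prop :=
  ∃ (P : Matrix m n R) (P' : Matrix n m R), P * P' = 1 ∧ P' * P = 1 ∧ st σ P * A * P = B

variable {σ}

theorem Isom.symm {m n : Type*} [Fintype m] [Fintype n] [DecidableEq m] [DecidableEq n]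
    {A : Matrix m m R} {B : Matrix n n R} (h : Isom σ A B) : Isom σ B A := by
  obtain ⟨P, P', h1, h2, h3⟩ := h
  refine ⟨P', P, h2, h1, ?_⟩
  rw [← h3]
  have h4 : st σ P' * st σ P = 1 := by rw [← st_mul, h1, st_one]
  calc st σ P' * (st σ P * A * P) * P' = (st σ P' * st σ P) * A * (P * P') := by
        simp only [Matrix.mul_assoc]
    _ = A := by rw [h4, h1, Matrix.one_mul, Matrix.mul_one]

theorem Isom.trans {m n o : Type*} [Fintype m] [Fintype n] [Fintype o] [DecidableEq m]
    [DecidableEq n] [DecidableEq o] {A : Matrix m m R} {B : Matrix n n R} {C : Matrix o o R}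
    (h : Isom σ A B) (h' : Isom σ B C) : Isom σ A C := by
  obtain ⟨P, P', h1, h2, h3⟩ := h
  obtain ⟨Q, Q', k1, k2, k3⟩ := h'
  refine ⟨P * Q, Q' * P', ?_, ?_, ?_⟩
  · calc P * Q * (Q' * P') = P * (Q * Q') * P' := by simp only [Matrix.mul_assoc]
      _ = 1 := by rw [k1, Matrix.mul_one, h1]
  · calc Q' * P' * (P * Q) = Q' * (P' * P) * Q := by simp only [Matrix.mul_assoc]
      _ = 1 := by rw [h2, Matrix.mul_one, k2]
  · rw [st_mul, ← k3, ← h3]
    simp only [Matrix.mul_assoc]

/-- The form of rank two. -/
def H2 (p q : R) : Matrix (Fin 2) (Fin 2) R := !![0, p; q, 0]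

variable (σ)

theorem Isom.reindex {m n : Type*} [Fintype m] [Fintype n] [DecidableEq m] [DecidableEq n]
    (e : m ≃ n) (A : Matrix n n R) : Isom σ (A.submatrix e e) A := by
  refine ⟨(1 : Matrix n n R).submatrix e id, (1 : Matrix n n R).submatrix id e, ?_, ?_, ?_⟩
  · have : (1 : Matrix n n R).submatrix e id * (1 : Matrix n n R).submatrix id e =
        ((1 : Matrix n n R) * 1).submatrix e e := by
      rw [← Matrix.submatrix_mul _ _ e id e Function.bijective_id]
    rw [this, Matrix.mul_one, Matrix.submatrix_one_equiv]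
  · have : (1 : Matrix n n R).submatrix id e * (1 : Matrix n n R).submatrix e id =
        ((1 : Matrix n n R) * 1).submatrix id id := by
      rw [← Matrix.submatrix_mul _ _ id e id e.bijective]
    rw [this, Matrix.mul_one, Matrix.submatrix_id_id]
  · have h1 : st σ ((1 : Matrix n n R).submatrix e id) = (1 : Matrix n n R).submatrix id e := by
      unfold st
      rw [← Matrix.submatrix_map, Matrix.transpose_submatrix]
      simp
    rw [h1]
    have h2 : (1 : Matrix n n R).submatrix id e * A.submatrix e e =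
        ((1 : Matrix n n R) * A).submatrix id e := by
      rw [← Matrix.submatrix_mul _ _ id e e e.bijective]
    have h3 : A.submatrix id e * (1 : Matrix n n R).submatrix e id =
        (A * (1 : Matrix n n R)).submatrix id id := by
      rw [← Matrix.submatrix_mul _ _ id e id e.bijective]
    rw [h2, Matrix.one_mul, h3, Matrix.mul_one, Matrix.submatrix_id_id]

theorem Isom.refl {m : Type*} [Fintype m] [DecidableEq m] (A : Matrix m m R) : Isom σ A A :=
  ⟨1, 1, Matrix.one_mul _, Matrix.one_mul _, by rw [st_one, Matrix.one_mul, Matrix.mul_one]⟩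

theorem Isom.sum {m n m' n' : Type*} [Fintype m] [Fintype n] [DecidableEq m] [DecidableEq n]
    [Fintype m'] [Fintype n'] [DecidableEq m'] [DecidableEq n'] {A : Matrix m m R}
    {B : Matrix n n R} {A' : Matrix m' m' R} {B' : Matrix n' n' R} (h : Isom σ A B)
    (h' : Isom σ A' B') :
    Isom σ (Matrix.fromBlocks A 0 0 A') (Matrix.fromBlocks B 0 0 B') := by
  obtain ⟨P, P', h1, h2, h3⟩ := h
  obtain ⟨Q, Q', k1, k2, k3⟩ := h'
  have hz : st σ (0 : Matrix m' n R) = 0 := by
    unfold st
    ext i j
    simp
  have hz' : st σ (0 : Matrix m n' R) = 0 := by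
    unfold st
    ext i j
    simp
  refine ⟨Matrix.fromBlocks P 0 0 Q, Matrix.fromBlocks P' 0 0 Q', ?_, ?_, ?_⟩
  · rw [Matrix.fromBlocks_multiply]
    simp [h1, k1]
  · rw [Matrix.fromBlocks_multiply]
    simp [h2, k2]
  · rw [st_fromBlocks, Matrix.fromBlocks_multiply, Matrix.fromBlocks_multiply]
    simp [hz, hz', h3, k3]

end star

open Pool.Agent.H38.HT

/-- The sum of the squares of the coefficients. -/
noncomputable def nrm (a : LaurentPolynomial ℤ) : ℤ := ∑ n ∈ a.coeff.support, (a.coeff n) ^ 2

theorem nrm_eq (a : LaurentPolynomial ℤ) : (inv a * a).coeff 0 = nrm a := coeff_inv_mul_self a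

theorem nrm_nonneg (a : LaurentPolynomial ℤ) : 0 ≤ nrm a :=
  Finset.sum_nonneg fun n _ => sq_nonneg _

theorem eq_zero_of_nrm {a : LaurentPolynomial ℤ} (h : nrm a = 0) : a = 0 := by
  apply LaurentPolynomial.ext
  intro n
  by_contra hn
  have h2 : n ∈ a.coeff.support := Finsupp.mem_support_iff.mpr (by simpa using hn)
  have h3 : (a.coeff n) ^ 2 ≤ nrm a :=
    Finset.single_le_sum (f := fun n => (a.coeff n) ^ 2) (fun m _ => sq_nonneg _) h2
  have h4 : a.coeff n ≠ 0 := by simpa using hn
  have h5 : 0 < (a.coeff n) ^ 2 := by positivity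
  omega

theorem coeff_sum {k : Type*} (s : Finset k) (f : k → LaurentPolynomial ℤ) (n : ℤ) :
    (∑ i ∈ s, f i).coeff n = ∑ i ∈ s, (f i).coeff n := by
  classical
  induction s using Finset.induction_on with
  | empty => simp
  | insert a s ha ih =>
    rw [Finset.sum_insert ha, Finset.sum_insert ha, AddMonoidAlgebra.coeff_add, Finsupp.add_apply,
      ih]

end Pool.Agent.H38.RK
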