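import Pool.Agent.H38.RK.R1

/-!
# Small vectors of the forms of rank two
-/

set_option autoImplicit false
open LaurentPolynomial
open scoped Matrix

namespace Pool.Agent.H38.RK

open Pool.Agent.H38.HT

theorem small (x z : ℤ) (h : x ^ 2 + (7 * x + 5 * z) ^ 2 = 1) : False := by
  have hx1 : x ≤ 1 := by nlinarith [sq_nonneg (7 * x + 5 * z)]
  have hx2 : -1 ≤ x := by nlinarith [sq_nonneg (7 * x + 5 * z)]
  have hc : x = -1 ∨ x = 0 ∨ x = 1 := by omega
  rcases hc with rfl | rfl | rfl
  · have h1 : (7 * (-1) + 5 * z) ^ 2 = 0 := by linarith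
    have h2 := pow_eq_zero_iff (two_ne_zero) |>.mp h1
    omega
  · have h1 : 25 * (z ^ 2) = 1 := by linarith
    omega
  · have h1 : (7 * 1 + 5 * z) ^ 2 = 0 := by linarith
    have h2 := pow_eq_zero_iff (two_ne_zero) |>.mp h1
    omega

/-- The local step. -/
theorem local_step {G : Type*} [AddCommGroup G] {a : G} {u v β : G → ℤ}
    (hrel : ∀ r, v r = 7 * u r + 5 * (u (r - a) - u (r + a)) + 25 * β r)
    (h1 : ∀ r, u r ^ 2 + v r ^ 2 ≤ 25)
    (h2 : ∀ r r', r ≠ r' → (u r ^ 2 + v r ^ 2) + (u r' ^ 2 + v r' ^ 2) ≤ 25)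
    (hne : ∃ r, u r ^ 2 + v r ^ 2 ≠ 0) :
    (∃ r, ¬ (5 : ℤ) ∣ u r) ∧ ∀ r, (5 : ℤ) ∣ u r → (5 : ℤ) ∣ u (r - a) - u (r + a) := by
  have hex : ∃ r, ¬ (5 : ℤ) ∣ u r := by
    by_contra hcon
    push Not at hcon
    obtain ⟨r, hr⟩ := hne
    obtain ⟨x, hx⟩ := hcon r
    obtain ⟨c, hc⟩ := hcon (r - a)
    obtain ⟨c', hc'⟩ := hcon (r + a)
    have hv : v r = 5 * (7 * x + 5 * (c - c' + β r)) := by
      rw [hrel r, hx, hc, hc']
      ring
    set z := c - c' + β r with hz
    set y := 7 * x + 5 * z with hy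
    have h3 := h1 r
    rw [hx, hv] at h3 hr
    have h4 : x ^ 2 + y ^ 2 ≤ 1 := by nlinarith
    have h5 : 1 ≤ x ^ 2 + y ^ 2 := by
      by_contra hlt
      apply hr
      have : x ^ 2 + y ^ 2 = 0 := by
        have := add_nonneg (sq_nonneg x) (sq_nonneg y)
        omega
      linear_combination 25 * this
    exact small x z (by
      have h6 : x ^ 2 + y ^ 2 = 1 := le_antisymm h4 h5
      rw [hy] at h6
      exact h6)
  refine ⟨hex, ?_⟩
  intro r hr
  by_contra hd
  obtain ⟨r0, hr0⟩ := hex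
  obtain ⟨x, hx⟩ := hr
  have hne0 : r ≠ r0 := by
    rintro rfl
    exact hr0 ⟨x, hx⟩
  have hv : v r = 5 * (7 * x + (u (r - a) - u (r + a)) + 5 * β r) := by
    rw [hrel r, hx]
    ring
  set dd := u (r - a) - u (r + a) with hdd
  set y := 7 * x + dd + 5 * β r with hy
  have h3 := h2 r r0 hne0
  rw [hx, hv] at h3
  have h4 : 1 ≤ x ^ 2 + y ^ 2 := by
    by_contra hlt
    have h5 : x ^ 2 + y ^ 2 = 0 := by
      have := add_nonneg (sq_nonneg x) (sq_nonneg y)
      omega
    have hx0 : x = 0 := by nlinarith [sq_nonneg x, sq_nonneg y]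
    have hy0 : y = 0 := by nlinarith [sq_nonneg x, sq_nonneg y]
    apply hd
    exact ⟨-β r, by rw [hy0, hx0] at hy; linarith⟩
  have h5 : u r0 ≠ 0 := by
    intro h
    apply hr0
    rw [h]
    exact dvd_zero _
  have h6 : 0 < u r0 ^ 2 := by positivity
  nlinarith [sq_nonneg (v r0)]

theorem sq_le_nrm (a : LaurentPolynomial ℤ) (r : ℤ) : a.coeff r ^ 2 ≤ nrm a := by
  by_cases h : r ∈ a.coeff.support
  · exact Finset.single_le_sum (f := fun n => (a.coeff n) ^ 2) (fun m _ => sq_nonneg _) h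
  · have : a.coeff r = 0 := Finsupp.notMem_support_iff.mp h
    rw [this]
    simpa using nrm_nonneg a

theorem sq_add_le_nrm (a : LaurentPolynomial ℤ) {r r' : ℤ} (hrr : r ≠ r') :
    a.coeff r ^ 2 + a.coeff r' ^ 2 ≤ nrm a := by
  by_cases h : r ∈ a.coeff.support
  · by_cases h' : r' ∈ a.coeff.support
    · have := Finset.add_le_sum (f := fun n => (a.coeff n) ^ 2) (s := a.coeff.support)
        (fun m _ => sq_nonneg _) h h' hrr
      exact this
    · have : a.coeff r' = 0 := Finsupp.notMem_support_iff.mp h'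
      rw [this]
      simpa using sq_le_nrm a r
  · have : a.coeff r = 0 := Finsupp.notMem_support_iff.mp h
    rw [this]
    simpa using sq_le_nrm a r'

theorem coeff_T_mul (n : ℤ) (x : LaurentPolynomial ℤ) (r : ℤ) :
    (T n * x).coeff r = x.coeff (r - n) := by
  have : (T n : LaurentPolynomial ℤ) = AddMonoidAlgebra.single n 1 := rfl
  rw [this, AddMonoidAlgebra.coeff_single_mul_apply, one_mul]
  congr 1
  ring

theorem coeff_ofNat_mul (m : ℕ) [m.AtLeastTwo] (x : LaurentPolynomial ℤ) (r : ℤ) :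
    ((OfNat.ofNat m : LaurentPolynomial ℤ) * x).coeff r = (OfNat.ofNat m : ℤ) * x.coeff r := by
  have : (OfNat.ofNat m : LaurentPolynomial ℤ) = C (OfNat.ofNat m : ℤ) := by simp
  rw [this, ← LaurentPolynomial.smul_eq_C_mul, AddMonoidAlgebra.coeff_smul, Finsupp.smul_apply,
    smul_eq_mul]

/-- The forms of rank two have no vectors of norm one. -/
theorem no_norm_one {n : ℤ} (hn : 1 ≤ n) {u v β : LaurentPolynomial ℤ}
    (hrel : v = (7 + 5 * (T n - T (-n))) * u + 25 * β) (h : nrm u + nrm v = 25) : False := by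
  have hc : ∀ r, v.coeff r = 7 * u.coeff r + 5 * (u.coeff (r - n) - u.coeff (r + n)) +
      25 * β.coeff r := by
    intro r
    have e : (7 + 5 * (T n - T (-n))) * u + 25 * β =
        7 * u + 5 * (T n * u) - 5 * (T (-n) * u) + 25 * β := by ring
    rw [hrel, e, AddMonoidAlgebra.coeff_add, Finsupp.add_apply, AddMonoidAlgebra.coeff_sub,
      Finsupp.sub_apply, AddMonoidAlgebra.coeff_add, Finsupp.add_apply, coeff_ofNat_mul,
      coeff_ofNat_mul, coeff_ofNat_mul, coeff_ofNat_mul, coeff_T_mul, coeff_T_mul, sub_neg_eq_add]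
    ring
  have hne : ∃ r, u.coeff r ^ 2 + v.coeff r ^ 2 ≠ 0 := by
    by_contra hcon
    push Not at hcon
    have hu : u = 0 := by
      apply LaurentPolynomial.ext
      intro r
      have := hcon r
      have h0 : u.coeff r = 0 := by nlinarith [sq_nonneg (u.coeff r), sq_nonneg (v.coeff r)]
      simpa using h0
    have hv : v = 0 := by
      apply LaurentPolynomial.ext
      intro r
      have := hcon r
      have h0 : v.coeff r = 0 := by nlinarith [sq_nonneg (u.coeff r), sq_nonneg (v.coeff r)]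
      simpa using h0
    rw [hu, hv] at h
    simp [nrm] at h
  obtain ⟨⟨r0, hr0⟩, hstep⟩ := local_step (a := n) (u := fun r => u.coeff r)
    (v := fun r => v.coeff r) (β := fun r => β.coeff r) hc
    (fun r => by
      have a1 := sq_le_nrm u r
      have a2 := sq_le_nrm v r
      linarith)
    (fun r r' hrr => by
      have a1 := sq_add_le_nrm u hrr
      have a2 := sq_add_le_nrm v hrr
      linarith) hne
  classical
  let S : Finset ℤ := u.coeff.support.filter fun r => ¬ (5 : ℤ) ∣ u.coeff r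
  have hmem : ∀ r, r ∈ S ↔ ¬ (5 : ℤ) ∣ u.coeff r := by
    intro r
    show r ∈ u.coeff.support.filter _ ↔ _
    rw [Finset.mem_filter, Finsupp.mem_support_iff]
    constructor
    · exact fun h => h.2
    · intro h
      refine ⟨?_, h⟩
      intro h0
      apply h
      rw [h0]
      exact dvd_zero _
  have hS : S.Nonempty := ⟨r0, (hmem r0).mpr hr0⟩
  let B := S.max' hS
  have hB : ¬ (5 : ℤ) ∣ u.coeff B := (hmem B).mp (S.max'_mem hS)
  have hgt : ∀ r, B < r → (5 : ℤ) ∣ u.coeff r := by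
    intro r hr
    by_contra h5
    have := S.le_max' r ((hmem r).mpr h5)
    exact absurd hr (not_lt.mpr this)
  have h5 := hstep (B + n) (hgt _ (by omega))
  simp only [add_sub_cancel_right] at h5
  have h6 := hgt (B + n + n) (by omega)
  exact hB ((dvd_sub_left h6).mp h5)

end Pool.Agent.H38.RK
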