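import Pool.Agent.H38.RK.Per

/-!
# The family of forms of rank two
-/

set_option autoImplicit false
open LaurentPolynomial
open scoped Matrix

namespace Pool.Agent.H38.RK

open Pool.Agent.H38.HT

/-- The parameter `t ^ n - t ^ (-n)`. -/
noncomputable def gg (n : ℕ) : LaurentPolynomial ℤ := T (n : ℤ) - T (-(n : ℤ))

/-- The element `h` with `(t⁻¹ - 1) h = t ^ n - t ^ (-n)`. -/
noncomputable def hr : ℕ → LaurentPolynomial ℤ
  | 0 => 0
  | n + 1 => hr n - T ((n : ℤ) + 1) - T (-(n : ℤ))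

theorem hr_inv (n : ℕ) : inv (hr n) = T (-1) * hr n := by
  induction n with
  | zero => simp [hr]
  | succ n ih =>
    rw [hr, map_sub, map_sub, ih, inv_T, inv_T, mul_sub, mul_sub, ← T_add, ← T_add]
    have e1 : (-((n : ℤ) + 1)) = -1 + -(n : ℤ) := by ring
    have e2 : (- -(n : ℤ)) = -1 + ((n : ℤ) + 1) := by ring
    rw [e1, e2]
    ring

theorem hr_gg (n : ℕ) : T (-1) * hr n - hr n = gg n := by
  induction n with
  | zero => simp [hr, gg]
  | succ n ih =>
    have e3 : T (-1) * T ((n : ℤ) + 1) = (T (n : ℤ) : LaurentPolynomial ℤ) := by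
      rw [← T_add]
      congr 1
      ring
    have e4 : T (-1) * T (-(n : ℤ)) = (T (-((n + 1 : ℕ) : ℤ)) : LaurentPolynomial ℤ) := by
      rw [← T_add]
      congr 1
      push_cast
      ring
    have e5 : (T ((n + 1 : ℕ) : ℤ) : LaurentPolynomial ℤ) = T ((n : ℤ) + 1) := by
      congr 1
    have e6 : gg (n + 1) = T ((n + 1 : ℕ) : ℤ) - T (-((n + 1 : ℕ) : ℤ)) := rfl
    have e7 : gg n = T (n : ℤ) - T (-(n : ℤ)) := rfl
    rw [hr, e6, e5, ← e4]
    rw [e7] at ih
    linear_combination ih - e3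

theorem inv_gg (n : ℕ) : inv (gg n) = -gg n := by
  unfold gg
  rw [map_sub, inv_T, inv_T, neg_neg]
  ring

theorem aug_gg (n : ℕ) : aug (gg n) = 0 := by
  unfold gg
  rw [map_sub, aug_T, aug_T, sub_self]

section generic
variable {R : Type*} [CommRing R]

/-- Coordinates in which 25 times the form is the standard form. -/
def Xg (g : R) : Matrix (Fin 2) (Fin 2) R := !![1, 0; 7 + 5*g, 25]

theorem Xg_gram {σ : R →+* R} {g : R} (hg : σ g = -g) :
    st σ (Xg g) * Xg g = (25 : R) • Gf g := by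
  ext i j
  fin_cases i <;> fin_cases j <;>
    simp [Xg, Gf, st, Matrix.mul_apply, Fin.sum_univ_two, hg, map_ofNat] <;> ring

/-- A vector of norm one modulo the parameter. -/
def yy : Matrix (Fin 2) (Fin 1) R := !![-3; 1]

theorem yy_gram {σ : R →+* R} (g : R) :
    (st σ (yy : Matrix (Fin 2) (Fin 1) R) * Gf g * (yy : Matrix (Fin 2) (Fin 1) R)) 0 0 =
      1 - 9 * g^2 := by
  simp [yy, Gf, st, Matrix.mul_apply, Fin.sum_univ_two, map_ofNat]
  ring

end generic

theorem st2_apply {m n : Type*} (V : Matrix (Fin 2) m (LaurentPolynomial ℤ))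
    (U : Matrix (Fin 2) n (LaurentPolynomial ℤ)) (i : m) (j : n) :
    (st inv V * U) i j = inv (V 0 i) * U 0 j + inv (V 1 i) * U 1 j := by
  simp [st, Matrix.mul_apply, Fin.sum_univ_two]

theorem Xg_0 (g : LaurentPolynomial ℤ) {n : Type*} (U : Matrix (Fin 2) n (LaurentPolynomial ℤ))
    (j : n) : (Xg g * U) 0 j = U 0 j := by
  simp [Xg, Matrix.mul_apply, Fin.sum_univ_two]

theorem Xg_1 (g : LaurentPolynomial ℤ) {n : Type*} (U : Matrix (Fin 2) n (LaurentPolynomial ℤ))
    (j : n) : (Xg g * U) 1 j = (7 + 5 * g) * U 0 j + 25 * U 1 j := by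
  simp [Xg, Matrix.mul_apply, Fin.sum_univ_two]

/-- Vectors of norm one lie in the standard summand. -/
theorem unit_vector {a : ℕ} (ha : 1 ≤ a) {m : ℕ} {n : Type*}
    (U : Matrix (Fin 2) n (LaurentPolynomial ℤ))
    (V : Matrix (Fin m) n (LaurentPolynomial ℤ)) (j : n)
    (h : inv ((Xg (gg a) * U) 0 j) * (Xg (gg a) * U) 0 j +
      inv ((Xg (gg a) * U) 1 j) * (Xg (gg a) * U) 1 j +
      25 * ∑ k, inv (V k j) * V k j = 25) :
    ∀ i, U i j = 0 := by
  have h1 : nrm ((Xg (gg a) * U) 0 j) + nrm ((Xg (gg a) * U) 1 j) +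
      25 * ∑ k, nrm (V k j) = 25 := by
    have e2 : (25 : LaurentPolynomial ℤ) = C 25 := by simp
    have h2 : (25 * ∑ k, inv (V k j) * V k j : LaurentPolynomial ℤ).coeff 0 =
        25 * ∑ k, nrm (V k j) := by
      rw [coeff_ofNat_mul, coeff_sum]
      simp only [nrm_eq]
    have h3 := congrArg (fun p : LaurentPolynomial ℤ => p.coeff 0) h
    simp only [AddMonoidAlgebra.coeff_add, Finsupp.add_apply, nrm_eq, h2] at h3
    rw [h3, e2]
    simp
  have n0 := nrm_nonneg ((Xg (gg a) * U) 0 j)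
  have n1 := nrm_nonneg ((Xg (gg a) * U) 1 j)
  have nk : 0 ≤ ∑ k, nrm (V k j) := Finset.sum_nonneg fun k _ => nrm_nonneg _
  by_cases hz : ∑ k, nrm (V k j) = 0
  · exfalso
    rw [hz] at h1
    have hrel : (Xg (gg a) * U) 1 j =
        (7 + 5 * (T (a : ℤ) - T (-(a : ℤ)))) * (Xg (gg a) * U) 0 j + 25 * U 1 j := by
      rw [Xg_1, Xg_0]
      rfl
    exact no_norm_one (n := (a : ℤ)) (by omega) hrel (by linarith)
  · have hpos : 1 ≤ ∑ k, nrm (V k j) := by omega
    have x0 : (Xg (gg a) * U) 0 j = 0 := eq_zero_of_nrm (by linarith)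
    have x1 : (Xg (gg a) * U) 1 j = 0 := eq_zero_of_nrm (by linarith)
    rw [Xg_0] at x0
    rw [Xg_1, x0, mul_zero, zero_add] at x1
    have h25 : (25 : LaurentPolynomial ℤ) ≠ 0 := by
      intro h
      have := congrArg (fun p : LaurentPolynomial ℤ => p.coeff 0) h
      have e2 : (25 : LaurentPolynomial ℤ) = C 25 := by simp
      rw [e2] at this
      simp at this
    intro i
    fin_cases i
    · exact x0
    · exact (mul_eq_zero.mp x1).resolve_left h25

/-- Cancellation of the standard summand. -/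
theorem cancel {a : ℕ} (ha : 1 ≤ a) {m : ℕ} (A : Matrix (Fin 2) (Fin 2) (LaurentPolynomial ℤ))
    (h : Isom inv (Matrix.fromBlocks (Gf (gg a)) 0 0 (1 : Matrix (Fin m) (Fin m) _))
      (Matrix.fromBlocks A 0 0 (1 : Matrix (Fin m) (Fin m) _))) : Isom inv (Gf (gg a)) A := by
  obtain ⟨P, P', h1, h2, h3⟩ := h
  obtain ⟨P11, P12, P21, P22, rfl⟩ : ∃ P11 P12 P21 P22, P = Matrix.fromBlocks P11 P12 P21 P22 :=
    ⟨_, _, _, _, (Matrix.fromBlocks_toBlocks P).symm⟩
  obtain ⟨Q11, Q12, Q21, Q22, rfl⟩ : ∃ Q11 Q12 Q21 Q22, P' = Matrix.fromBlocks Q11 Q12 Q21 Q22 :=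
    ⟨_, _, _, _, (Matrix.fromBlocks_toBlocks P').symm⟩
  rw [Matrix.fromBlocks_multiply, ← Matrix.fromBlocks_one, Matrix.fromBlocks_inj] at h1
  rw [st_fromBlocks, Matrix.fromBlocks_multiply, Matrix.fromBlocks_multiply,
    Matrix.fromBlocks_inj] at h3
  simp only [Matrix.mul_zero, Matrix.mul_one, add_zero, zero_add] at h3
  obtain ⟨k11, k12, k21, k22⟩ := h3
  have hz : P12 = 0 := by
    ext1 i j
    refine unit_vector ha P12 P22 j ?_ i
    have h5 : (st inv (Xg (gg a) * P12) * (Xg (gg a) * P12)) =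
        (25 : LaurentPolynomial ℤ) • (st inv P12 * Gf (gg a) * P12) := by
      rw [st_mul]
      calc st inv P12 * st inv (Xg (gg a)) * (Xg (gg a) * P12) =
            st inv P12 * (st inv (Xg (gg a)) * Xg (gg a)) * P12 := by
            simp only [Matrix.mul_assoc]
        _ = _ := by rw [Xg_gram (inv_gg a), Matrix.mul_smul, Matrix.smul_mul]
    have h6 := congrFun (congrFun h5 j) j
    rw [st2_apply, Matrix.smul_apply, smul_eq_mul] at h6
    rw [h6]
    have h7 := congrFun (congrFun k22 j) j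
    rw [Matrix.add_apply, Matrix.one_apply_eq] at h7
    have h8 : (st inv P22 * P22) j j = ∑ k, inv (P22 k j) * P22 k j := by
      simp [st, Matrix.mul_apply]
    rw [h8] at h7
    linear_combination 25 * h7
  subst hz
  simp only [Matrix.mul_zero, Matrix.zero_mul, add_zero, zero_add] at h1 k12 k22
  have k22' : P22 * st inv P22 = 1 := mul_eq_one_comm.mp k22
  have hst : st inv P21 = 0 := by
    calc st inv P21 = st inv P21 * (P22 * st inv P22) := by rw [k22', Matrix.mul_one]
      _ = (st inv P21 * P22) * st inv P22 := by rw [Matrix.mul_assoc]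
      _ = 0 := by rw [k12, Matrix.zero_mul]
  rw [hst, Matrix.zero_mul, add_zero] at k11
  exact ⟨P11, Q11, h1.1, mul_eq_one_comm.mp h1.1, k11⟩

/-- The forms of rank two are not isometric to the standard form. -/
theorem not_isom_one {a : ℕ} (ha : 1 ≤ a) :
    ¬ Isom inv (Gf (gg a)) (1 : Matrix (Fin 2) (Fin 2) (LaurentPolynomial ℤ)) := by
  rintro ⟨P, P', h1, -, h⟩
  have h5 : (st inv (Xg (gg a) * P) * (Xg (gg a) * P)) =
      (25 : LaurentPolynomial ℤ) • 1 := by
    rw [st_mul]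
    calc st inv P * st inv (Xg (gg a)) * (Xg (gg a) * P) =
          st inv P * (st inv (Xg (gg a)) * Xg (gg a)) * P := by
          simp only [Matrix.mul_assoc]
      _ = _ := by rw [Xg_gram (inv_gg a), Matrix.mul_smul, Matrix.smul_mul, h]
  have h6 := congrFun (congrFun h5 0) 0
  rw [st2_apply, Matrix.smul_apply, Matrix.one_apply_eq, smul_eq_mul, mul_one] at h6
  have h7 := unit_vector ha (m := 0) P (0 : Matrix (Fin 0) (Fin 2) (LaurentPolynomial ℤ)) 0 (by
    rw [h6]
    simp)
  have h8 := congrFun (congrFun h 0) 0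
  have h9 : (P' * P) 0 0 = 1 := by rw [mul_eq_one_comm.mp h1]; rfl
  rw [Matrix.mul_apply, Fin.sum_univ_two, h7 0, h7 1] at h9
  simp at h9

theorem phi_gg (b : ℕ) : phi b (gg b) = 0 := by
  unfold gg
  rw [map_sub, phi_T, phi_T]
  simp

theorem phi_C_mul (b : ℕ) (c : ℤ) (x : LaurentPolynomial ℤ) (r : ZMod b) :
    (phi b (C c * x)).coeff r = c * (phi b x).coeff r := by
  rw [map_mul, phi_C, AddMonoidAlgebra.coeff_single_mul_apply]
  congr 1
  congr 1
  ring

/-- Two forms of rank two with parameters whose quotient is at least eleven are not isometric. -/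
theorem not_isom {a l : ℕ} (ha : 1 ≤ a) (hl : 11 ≤ l) :
    ¬ Isom inv (Gf (gg a)) (Gf (gg (a * l))) := by
  rintro ⟨P, P', -, -, h⟩
  have : NeZero (a * l) := ⟨by positivity⟩
  let y : Matrix (Fin 2) (Fin 1) (LaurentPolynomial ℤ) := yy
  have h5 : (st inv (Xg (gg a) * (P * y)) * (Xg (gg a) * (P * y))) =
      (25 : LaurentPolynomial ℤ) • (st inv y * Gf (gg (a * l)) * y) := by
    rw [st_mul, st_mul]
    calc st inv y * st inv P * st inv (Xg (gg a)) * (Xg (gg a) * (P * y)) =
          st inv y * (st inv P * (st inv (Xg (gg a)) * Xg (gg a)) * P) * y := by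
          simp only [Matrix.mul_assoc]
      _ = _ := by rw [Xg_gram (inv_gg a), Matrix.mul_smul, Matrix.smul_mul, h, Matrix.mul_smul,
                    Matrix.smul_mul]
  have h6 := congrFun (congrFun h5 0) 0
  rw [st2_apply, Matrix.smul_apply, yy_gram, smul_eq_mul] at h6
  set u := (Xg (gg a) * (P * y)) 0 0 with hu
  set v := (Xg (gg a) * (P * y)) 1 0 with hv
  set β := (P * y) 1 0 with hβ
  have hrel : v = (7 + 5 * (T (a : ℤ) - T (-(a : ℤ)))) * u + 25 * β := by
    rw [hv, hu, hβ, Xg_1, Xg_0]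
    rfl
  have h7 := congrArg (phi (a * l)) h6
  rw [map_add, map_mul, map_mul, map_mul, map_sub, map_one, map_mul, map_pow, phi_gg] at h7
  have h8 := congrArg (fun p : AddMonoidAlgebra ℤ (ZMod (a * l)) => p.coeff 0) h7
  simp only [AddMonoidAlgebra.coeff_add, Finsupp.add_apply, phi_norm] at h8
  rw [← Finset.sum_add_distrib] at h8
  refine per_contra ha hl (u := fun r => (phi (a * l) u).coeff r)
    (v := fun r => (phi (a * l) v).coeff r) (β := fun r => (phi (a * l) β).coeff r) ?_ ?_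
  · intro r
    have e : (7 + 5 * (T (a : ℤ) - T (-(a : ℤ)))) * u + 25 * β =
        C 7 * u + C 5 * (T (a : ℤ) * u) - C 5 * (T (-(a : ℤ)) * u) + C 25 * β := by
      have e7 : (C 7 : LaurentPolynomial ℤ) = 7 := by simp
      have e5 : (C 5 : LaurentPolynomial ℤ) = 5 := by simp
      have e25 : (C 25 : LaurentPolynomial ℤ) = 25 := by simp
      rw [e7, e5, e25]
      ring
    show (phi (a * l) v).coeff r = _
    rw [hrel, e, map_add, map_sub, map_add, AddMonoidAlgebra.coeff_add, Finsupp.add_apply,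
      AddMonoidAlgebra.coeff_sub, Finsupp.sub_apply, AddMonoidAlgebra.coeff_add,
      Finsupp.add_apply, phi_C_mul, phi_C_mul, phi_C_mul, phi_C_mul, phi_T_mul, phi_T_mul]
    push_cast
    rw [sub_neg_eq_add]
    ring
  · show ∑ r, ((phi (a * l) u).coeff r ^ 2 + (phi (a * l) v).coeff r ^ 2) = 25
    rw [h8]
    have e25 : (25 : LaurentPolynomial ℤ) = C 25 := by simp
    rw [e25, phi_C]
    simp

/-- The rank two forms become isometric to the standard form after adding one copy of `H2`. -/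
theorem gg_stable (n : ℕ) :
    Isom inv (Matrix.fromBlocks (Gf (gg n)) 0 0 (H2 (T 1 - 1) (T (-1) - 1)))
      (Matrix.fromBlocks (1 : Matrix (Fin 2) (Fin 2) (LaurentPolynomial ℤ)) 0 0
        (H2 (T 1 - 1) (T (-1) - 1))) := by
  have h := stable (σ := inv) (t := (T 1 : LaurentPolynomial ℤ)) (s := T (-1)) (h := hr n)
    (by
      rw [← T_add]
      simp) (by rw [inv_T, neg_neg]) (hr_inv n)
  rw [hr_gg] at h
  exact h

end Pool.Agent.H38.RK
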