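import Pool.Agent.H38.RK.Loc

/-!
# Periodization
-/

set_option autoImplicit false
open LaurentPolynomial
open scoped Matrix

namespace Pool.Agent.H38.RK

open Pool.Agent.H38.HT

theorem five_le {x y : ℤ} (hx : ¬ (5 : ℤ) ∣ x) (hy : (5 : ℤ) ∣ y - 7 * x) : 5 ≤ x ^ 2 + y ^ 2 := by
  obtain ⟨w, hw⟩ := hy
  have h1 : y = 7 * x + 5 * w := by linarith
  have h2 : x ^ 2 + y ^ 2 = 5 * (10 * x ^ 2 + 14 * x * w + 5 * w ^ 2) := by
    rw [h1]
    ring
  have hx0 : x ≠ 0 := by
    rintro rfl
    exact hx (dvd_zero _)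
  have h3 : 0 < x ^ 2 := by positivity
  have h4 : 0 < x ^ 2 + y ^ 2 := by positivity
  rw [h2] at h4 ⊢
  omega

/-- A periodic system of integers. -/
theorem per_contra {a l : ℕ} (ha : 1 ≤ a) (hl : 11 ≤ l) [NeZero (a * l)]
    {u v β : ZMod (a * l) → ℤ}
    (hrel : ∀ r, v r = 7 * u r + 5 * (u (r - (a : ZMod (a * l))) - u (r + (a : ZMod (a * l)))) +
      25 * β r)
    (hsum : ∑ r, (u r ^ 2 + v r ^ 2) = 25) : False := by
  have hf : ∀ r, 0 ≤ u r ^ 2 + v r ^ 2 := fun r => by positivity
  have hne : ∃ r, u r ^ 2 + v r ^ 2 ≠ 0 := by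
    by_contra hcon
    push Not at hcon
    rw [Finset.sum_eq_zero fun r _ => hcon r] at hsum
    norm_num at hsum
  obtain ⟨⟨r0, hr0⟩, hstep⟩ := local_step hrel
    (fun r => by
      rw [← hsum]
      exact Finset.single_le_sum (f := fun r => u r ^ 2 + v r ^ 2) (fun r _ => hf r)
        (Finset.mem_univ r))
    (fun r r' hrr => by
      rw [← hsum]
      exact Finset.add_le_sum (f := fun r => u r ^ 2 + v r ^ 2) (fun r _ => hf r)
        (Finset.mem_univ r) (Finset.mem_univ r') hrr) hne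
  have hcons : ∀ k : ℕ, (5 : ℤ) ∣ u (r0 + ((k * a : ℕ) : ZMod (a * l))) →
      (5 : ℤ) ∣ u (r0 + (((k + 1) * a : ℕ) : ZMod (a * l))) → False := by
    intro k
    induction k with
    | zero =>
      intro h _
      apply hr0
      simpa using h
    | succ k ih =>
      intro h1 h2
      apply ih _ h1
      have h3 := hstep _ h1
      have e1 : r0 + (((k + 1) * a : ℕ) : ZMod (a * l)) - (a : ZMod (a * l)) =
          r0 + ((k * a : ℕ) : ZMod (a * l)) := by
        push_cast
        ring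
      have e2 : r0 + (((k + 1) * a : ℕ) : ZMod (a * l)) + (a : ZMod (a * l)) =
          r0 + (((k + 1 + 1) * a : ℕ) : ZMod (a * l)) := by
        push_cast
        ring
      rw [e1, e2] at h3
      exact (dvd_sub_left h2).mp h3
  have hA : ∀ r, ¬ (5 : ℤ) ∣ u r → 5 ≤ u r ^ 2 + v r ^ 2 := by
    intro r hr
    apply five_le hr
    rw [hrel r]
    exact ⟨u (r - (a : ZMod (a * l))) - u (r + (a : ZMod (a * l))) + 5 * β r, by ring⟩
  let F : ℕ → ℤ := fun k => u (r0 + ((k * a : ℕ) : ZMod (a * l))) ^ 2 +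
    v (r0 + ((k * a : ℕ) : ZMod (a * l))) ^ 2
  have hF : ∀ k, 0 ≤ F k := fun k => hf _
  have hpair : ∀ k, 5 ≤ F k + F (k + 1) := by
    intro k
    by_cases h1 : (5 : ℤ) ∣ u (r0 + ((k * a : ℕ) : ZMod (a * l)))
    · by_cases h2 : (5 : ℤ) ∣ u (r0 + (((k + 1) * a : ℕ) : ZMod (a * l)))
      · exact (hcons k h1 h2).elim
      · have := hA _ h2
        have h3 := hF k
        have h4 : F (k + 1) = u (r0 + (((k + 1) * a : ℕ) : ZMod (a * l))) ^ 2 +
          v (r0 + (((k + 1) * a : ℕ) : ZMod (a * l))) ^ 2 := rfl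
        linarith
    · have := hA _ h1
      have h3 := hF (k + 1)
      have h4 : F k = u (r0 + ((k * a : ℕ) : ZMod (a * l))) ^ 2 +
        v (r0 + ((k * a : ℕ) : ZMod (a * l))) ^ 2 := rfl
      linarith
  have h0 : 5 ≤ F 0 := by
    have h4 : F 0 = u (r0 + ((0 * a : ℕ) : ZMod (a * l))) ^ 2 +
      v (r0 + ((0 * a : ℕ) : ZMod (a * l))) ^ 2 := rfl
    rw [h4]
    apply hA
    simpa using hr0
  have hinj : Set.InjOn (fun k : ℕ => r0 + ((k * a : ℕ) : ZMod (a * l)))
      (Finset.range 11 : Set ℕ) := by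
    intro k hk k' hk' hkk
    have h1 : ((k * a : ℕ) : ZMod (a * l)) = ((k' * a : ℕ) : ZMod (a * l)) := add_left_cancel hkk
    rw [ZMod.natCast_eq_natCast_iff'] at h1
    have hk1 : k < 11 := by simpa using hk
    have hk2 : k' < 11 := by simpa using hk'
    have b1 : k * a < a * l := by nlinarith
    have b2 : k' * a < a * l := by nlinarith
    rw [Nat.mod_eq_of_lt b1, Nat.mod_eq_of_lt b2] at h1
    exact Nat.eq_of_mul_eq_mul_right (by omega) h1
  have hle : ∑ k ∈ Finset.range 11, F k ≤ 25 := by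
    rw [← hsum]
    have h1 : ∑ k ∈ Finset.range 11, F k =
        ∑ r ∈ (Finset.range 11).image (fun k : ℕ => r0 + ((k * a : ℕ) : ZMod (a * l))),
          (u r ^ 2 + v r ^ 2) := by
      rw [Finset.sum_image hinj]
    rw [h1]
    exact Finset.sum_le_sum_of_subset_of_nonneg (Finset.subset_univ _) (fun r _ _ => hf r)
  simp only [Finset.sum_range_succ, Finset.sum_range_zero] at hle
  have p1 := hpair 1
  have p3 := hpair 3
  have p5 := hpair 5
  have p7 := hpair 7
  have p9 := hpair 9
  norm_num at p1 p3 p5 p7 p9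
  linarith

/-- The reduction modulo `t ^ b = 1`. -/
noncomputable def phi (b : ℕ) : LaurentPolynomial ℤ →+* AddMonoidAlgebra ℤ (ZMod b) :=
  AddMonoidAlgebra.mapDomainRingHom ℤ (Int.castAddHom (ZMod b))

theorem phi_T (b : ℕ) (n : ℤ) : phi b (T n) = AddMonoidAlgebra.single (n : ZMod b) 1 := by
  show AddMonoidAlgebra.mapDomain (fun x : ℤ => (x : ZMod b)) (AddMonoidAlgebra.single n 1) = _
  rw [AddMonoidAlgebra.mapDomain_single]

theorem phi_C (b : ℕ) (c : ℤ) : phi b (C c) = AddMonoidAlgebra.single (0 : ZMod b) c := by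
  show AddMonoidAlgebra.mapDomain (fun x : ℤ => (x : ZMod b)) (AddMonoidAlgebra.single 0 c) = _
  rw [AddMonoidAlgebra.mapDomain_single, Int.cast_zero]

theorem phi_inv (b : ℕ) (x : LaurentPolynomial ℤ) (r : ZMod b) :
    (phi b (inv x)).coeff r = (phi b x).coeff (-r) := by
  induction x using LaurentPolynomial.induction_on' generalizing r with
  | add p q hp hq =>
    rw [map_add, map_add, map_add, AddMonoidAlgebra.coeff_add, AddMonoidAlgebra.coeff_add,
      Finsupp.add_apply, Finsupp.add_apply, hp, hq]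
  | C_mul_T n c =>
    have hC : inv (C c) = C c := by simp
    rw [map_mul, hC, inv_T, map_mul, map_mul, phi_C, phi_T, phi_T,
      AddMonoidAlgebra.single_mul_single, AddMonoidAlgebra.single_mul_single,
      AddMonoidAlgebra.coeff_single, AddMonoidAlgebra.coeff_single, Finsupp.single_apply,
      Finsupp.single_apply]
    congr 1
    simp only [eq_iff_iff, Int.cast_neg, zero_add]
    constructor
    · intro h
      rw [← h, neg_neg]
    · intro h
      rw [h, neg_neg]

theorem phi_T_mul (b : ℕ) (n : ℤ) (x : LaurentPolynomial ℤ) (r : ZMod b) :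
    (phi b (T n * x)).coeff r = (phi b x).coeff (r - (n : ZMod b)) := by
  rw [map_mul, phi_T, AddMonoidAlgebra.coeff_single_mul_apply, one_mul]
  congr 1
  ring

theorem phi_norm (b : ℕ) [NeZero b] (x : LaurentPolynomial ℤ) :
    (phi b (inv x) * phi b x).coeff 0 = ∑ r, (phi b x).coeff r ^ 2 := by
  classical
  rw [mul_comm, AddMonoidAlgebra.coeff_mul, Finsupp.sum_fintype]
  · refine Finset.sum_congr rfl ?_
    intro r _
    rw [Finsupp.sum_fintype]
    · have h1 : ∀ m : ZMod b,
          (if r + m = 0 then (phi b x).coeff r * (phi b (inv x)).coeff m else 0)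
            = if m = -r then (phi b x).coeff r * (phi b (inv x)).coeff m else 0 := by
        intro m
        congr 1
        simp only [eq_iff_iff]
        exact ⟨fun h => eq_neg_of_add_eq_zero_right h, fun h => by rw [h, add_neg_cancel]⟩
      rw [Finset.sum_congr rfl fun m _ => h1 m, Finset.sum_ite_eq', if_pos (Finset.mem_univ _),
        phi_inv, neg_neg, sq]
    · intro m
      simp
  · intro r
    simp [Finsupp.sum]

end Pool.Agent.H38.RK
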