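import Pool.Agent.H38.RK.Base

/-!
# A form of rank two plus `H2` is isometric to the standard form plus `H2`

In a commutative ring with elements `t, s, h` with `t s = 1` (think of `s = t⁻¹`) we write down
an isometry from the form with Gram matrix `(2 - g², 7 - 5 g; 7 + 5 g, 25)` plus `H2` to the
standard form of rank two plus `H2`, where `g = s h - h`.
-/

set_option autoImplicit false
open scoped Matrix

namespace Pool.Agent.H38.RK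

section generic
variable {R : Type*} [CommRing R]

/-- The form of rank two with parameter `g`. -/
def Gf (g : R) : Matrix (Fin 2) (Fin 2) R := !![2 - g^2, 7 - 5*g; 7 + 5*g, 25]

/-- Its inverse. -/
def Gi (g : R) : Matrix (Fin 2) (Fin 2) R := !![25, -(7 - 5*g); -(7 + 5*g), 2 - g^2]

theorem Gf_mul (g : R) : Gf g * Gi g = 1 := by
  ext i j
  fin_cases i <;> fin_cases j <;>
    simp [Gf, Gi, Matrix.mul_apply, Fin.sum_univ_two] <;> ring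

/-- The form `<1> + <1> + H2`. -/
def H4 (t s : R) : Matrix (Fin 4) (Fin 4) R :=
  !![1, 0, 0, 0; 0, 1, 0, 0; 0, 0, 0, t - 1; 0, 0, s - 1, 0]

/-- The form of rank two plus `H2`. -/
def G4 (t s h : R) : Matrix (Fin 4) (Fin 4) R :=
  !![2 - (s*h - h)^2, 7 - 5*(s*h - h), 0, 0; 7 + 5*(s*h - h), 25, 0, 0;
    0, 0, 0, t - 1; 0, 0, s - 1, 0]

/-- The isometry. -/
def P (s h : R) : Matrix (Fin 4) (Fin 4) R :=
  !![1 - 2*h + 2*s*h + 3*s*h^2 - 3*s^2*h^2, 4, -3 + 3*s + 15*s*h - 15*s^2*h, 6*h^2 - 9*s*h^2 - 15*s*h^3 + 3*s^2*h^2 + 15*s^2*h^3;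
    1 + h - s*h - 4*s*h^2 + 4*s^2*h^2, 3, 4 - 4*s - 20*s*h + 20*s^2*h, -8*h^2 + 12*s*h^2 + 20*s*h^3 - 4*s^2*h^2 - 20*s^2*h^3;
    -h^2 + 2*s*h^2 - 5*s^2*h^3, 0, 1 - 5*h + 5*s*h - 25*s^2*h^2, 5*h^3 - 10*s*h^3 + 5*s^2*h^3 + 25*s^2*h^4;
    1 - 5*s*h, 0, -25*s, 1 - 5*h + 5*s*h + 25*s*h^2]

/-- Its inverse. -/
def Pi (s h : R) : Matrix (Fin 4) (Fin 4) R :=
  !![-3 + 30*h - 75*h^2 - 30*s*h + 75*s*h^2, 4 - 40*h + 100*h^2 + 40*s*h - 100*s*h^2, -25 + 125*h + 25*s - 125*s*h, 50*h^2 - 125*h^3 - 75*s*h^2 + 125*s*h^3 + 25*s^2*h^2;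
    1 - 9*h + 27*h^2 - 15*h^3 + 9*s*h - 33*s*h^2 + 30*s*h^3 + 6*s^2*h^2 - 15*s^2*h^3, -1 + 12*h - 36*h^2 + 20*h^3 - 12*s*h + 44*s*h^2 - 40*s*h^3 - 8*s^2*h^2 + 20*s^2*h^3, 7 - 40*h + 25*h^2 - 7*s + 45*s*h - 50*s*h^2 - 5*s^2*h + 25*s^2*h^2, -14*h^2 + 45*h^3 - 25*h^4 + 21*s*h^2 - 60*s*h^3 + 50*s*h^4 - 7*s^2*h^2 + 20*s^2*h^3 - 25*s^2*h^4 - 5*s^3*h^3;
    -3*h^2 + 6*s*h^2 - 15*s*h^3, 4*h^2 - 8*s*h^2 + 20*s*h^3, 1 + 5*h - 5*s*h + 25*s*h^2, -5*h^3 + 10*s*h^3 - 25*s*h^4 - 5*s^2*h^3;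
    3 - 15*h, -4 + 20*h, 25, 1 + 5*h - 25*h^2 - 5*s*h]

theorem P_mul (s h : R) :
    P s h * Pi s h = 1 := by
  ext i j
  fin_cases i <;> fin_cases j
  · simp [P, Pi, Matrix.mul_apply, Fin.sum_univ_four] <;> ring
  · simp [P, Pi, Matrix.mul_apply, Fin.sum_univ_four] <;> ring
  · simp [P, Pi, Matrix.mul_apply, Fin.sum_univ_four] <;> ring
  · simp [P, Pi, Matrix.mul_apply, Fin.sum_univ_four] <;> ring
  · simp [P, Pi, Matrix.mul_apply, Fin.sum_univ_four] <;> ring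
  · simp [P, Pi, Matrix.mul_apply, Fin.sum_univ_four] <;> ring
  · simp [P, Pi, Matrix.mul_apply, Fin.sum_univ_four] <;> ring
  · simp [P, Pi, Matrix.mul_apply, Fin.sum_univ_four] <;> ring
  · simp [P, Pi, Matrix.mul_apply, Fin.sum_univ_four] <;> ring
  · simp [P, Pi, Matrix.mul_apply, Fin.sum_univ_four] <;> ring
  · simp [P, Pi, Matrix.mul_apply, Fin.sum_univ_four] <;> ring
  · simp [P, Pi, Matrix.mul_apply, Fin.sum_univ_four] <;> ring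
  · simp [P, Pi, Matrix.mul_apply, Fin.sum_univ_four] <;> ring
  · simp [P, Pi, Matrix.mul_apply, Fin.sum_univ_four] <;> ring
  · simp [P, Pi, Matrix.mul_apply, Fin.sum_univ_four] <;> ring
  · simp [P, Pi, Matrix.mul_apply, Fin.sum_univ_four] <;> ring

theorem P_iso {σ : R →+* R} {t s h : R} (hts : t * s = 1) (hs : σ s = t) (hh : σ h = s * h) :
    st σ (P s h) * H4 t s * P s h = G4 t s h := by
  ext i j
  fin_cases i <;> fin_cases j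
  · simp [st, P, H4, G4, hs, hh, map_ofNat, Matrix.mul_apply, Fin.sum_univ_four] <;>
      first
      | linear_combination (h - 2*h^2 + s*h^2 + 5*s^2*h^3 + 3*t*s*h^2 + 5*t*s*h^3 - 15*t*s^2*h^3 - 5*t^2*s^2*h^3 + 25*t^2*s^3*h^4) * hts
      | linear_combination (-(h - 2*h^2 + s*h^2 + 5*s^2*h^3 + 3*t*s*h^2 + 5*t*s*h^3 - 15*t*s^2*h^3 - 5*t^2*s^2*h^3 + 25*t^2*s^3*h^4)) * hts
  · simp [st, P, H4, G4, hs, hh, map_ofNat, Matrix.mul_apply, Fin.sum_univ_four] <;>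
      first
      | linear_combination (5*h) * hts
      | linear_combination (-(5*h)) * hts
  · simp [st, P, H4, G4, hs, hh, map_ofNat, Matrix.mul_apply, Fin.sum_univ_four] <;>
      first
      | linear_combination (-5*h + 5*s*h + 25*s^2*h^2 + 25*t*s*h^2 - 75*t*s^2*h^2 + 125*t^2*s^3*h^3) * hts
      | linear_combination (-(-5*h + 5*s*h + 25*s^2*h^2 + 25*t*s*h^2 - 75*t*s^2*h^2 + 125*t^2*s^3*h^3)) * hts
  · simp [st, P, H4, G4, hs, hh, map_ofNat, Matrix.mul_apply, Fin.sum_univ_four] <;>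
      first
      | linear_combination (2*h^2 + 5*h^3 - 3*s*h^2 - 5*s^2*h^3 - 25*s^2*h^4 + 2*t*s*h^2 - 15*t*s*h^3 - 25*t*s*h^4 + 15*t*s^2*h^3 + 75*t*s^2*h^4 - 5*t^2*s^2*h^3 + 25*t^2*s^2*h^4 - 25*t^2*s^3*h^4 - 125*t^2*s^3*h^5) * hts
      | linear_combination (-(2*h^2 + 5*h^3 - 3*s*h^2 - 5*s^2*h^3 - 25*s^2*h^4 + 2*t*s*h^2 - 15*t*s*h^3 - 25*t*s*h^4 + 15*t*s^2*h^3 + 75*t*s^2*h^4 - 5*t^2*s^2*h^3 + 25*t^2*s^2*h^4 - 25*t^2*s^3*h^4 - 125*t^2*s^3*h^5)) * hts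
  · simp [st, P, H4, G4, hs, hh, map_ofNat, Matrix.mul_apply, Fin.sum_univ_four] <;> ring
  · simp [st, P, H4, G4, hs, hh, map_ofNat, Matrix.mul_apply, Fin.sum_univ_four] <;> ring
  · simp [st, P, H4, G4, hs, hh, map_ofNat, Matrix.mul_apply, Fin.sum_univ_four] <;> ring
  · simp [st, P, H4, G4, hs, hh, map_ofNat, Matrix.mul_apply, Fin.sum_univ_four] <;> ring
  · simp [st, P, H4, G4, hs, hh, map_ofNat, Matrix.mul_apply, Fin.sum_univ_four] <;>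
      first
      | linear_combination (-10*h + 25*s*h^2 + 10*t*h + 25*t*h^2 - 50*t*s*h^2 - 25*t^2*s*h^2 + 125*t^2*s^2*h^3) * hts
      | linear_combination (-(-10*h + 25*s*h^2 + 10*t*h + 25*t*h^2 - 50*t*s*h^2 - 25*t^2*s*h^2 + 125*t^2*s^2*h^3)) * hts
  · simp [st, P, H4, G4, hs, hh, map_ofNat, Matrix.mul_apply, Fin.sum_univ_four] <;> ring
  · simp [st, P, H4, G4, hs, hh, map_ofNat, Matrix.mul_apply, Fin.sum_univ_four] <;>
      first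
      | linear_combination (-25 + 125*s*h + 125*t*h - 250*t*s*h + 625*t^2*s^2*h^2) * hts
      | linear_combination (-(-25 + 125*s*h + 125*t*h - 250*t*s*h + 625*t^2*s^2*h^2)) * hts
  · simp [st, P, H4, G4, hs, hh, map_ofNat, Matrix.mul_apply, Fin.sum_univ_four] <;>
      first
      | linear_combination (-5*h + 50*h^2 - 25*s*h^2 - 125*s*h^3 + 5*t*h - 50*t*h^2 - 125*t*h^3 + 50*t*s*h^2 + 250*t*s*h^3 - 25*t^2*s*h^2 + 125*t^2*s*h^3 - 125*t^2*s^2*h^3 - 625*t^2*s^2*h^4) * hts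
      | linear_combination (-(-5*h + 50*h^2 - 25*s*h^2 - 125*s*h^3 + 5*t*h - 50*t*h^2 - 125*t*h^3 + 50*t*s*h^2 + 250*t*s*h^3 - 25*t^2*s*h^2 + 125*t^2*s*h^3 - 125*t^2*s^2*h^3 - 625*t^2*s^2*h^4)) * hts
  · simp [st, P, H4, G4, hs, hh, map_ofNat, Matrix.mul_apply, Fin.sum_univ_four] <;>
      first
      | linear_combination (-h^2 + 3*s*h^2 + 5*s*h^3 - 25*s^3*h^4 - t*s*h^2 - 5*t*s*h^3 - 10*t*s^2*h^3 - 25*t*s^2*h^4 + 75*t*s^3*h^4 + 5*t^2*s^2*h^3 - 125*t^2*s^4*h^5) * hts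
      | linear_combination (-(-h^2 + 3*s*h^2 + 5*s*h^3 - 25*s^3*h^4 - t*s*h^2 - 5*t*s*h^3 - 10*t*s^2*h^3 - 25*t*s^2*h^4 + 75*t*s^3*h^4 + 5*t^2*s^2*h^3 - 125*t^2*s^4*h^5)) * hts
  · simp [st, P, H4, G4, hs, hh, map_ofNat, Matrix.mul_apply, Fin.sum_univ_four] <;> ring
  · simp [st, P, H4, G4, hs, hh, map_ofNat, Matrix.mul_apply, Fin.sum_univ_four] <;>
      first
      | linear_combination (-5*h + 5*s*h + 25*s*h^2 - 25*s^2*h^2 - 125*s^3*h^3 - 25*t*s*h^2 + 25*t*s^2*h^2 - 125*t*s^2*h^3 + 375*t*s^3*h^3 - 125*t^2*s^3*h^3 - 625*t^2*s^4*h^4) * hts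
      | linear_combination (-(-5*h + 5*s*h + 25*s*h^2 - 25*s^2*h^2 - 125*s^3*h^3 - 25*t*s*h^2 + 25*t*s^2*h^2 - 125*t*s^2*h^3 + 375*t*s^3*h^3 - 125*t^2*s^3*h^3 - 625*t^2*s^4*h^4)) * hts
  · simp [st, P, H4, G4, hs, hh, map_ofNat, Matrix.mul_apply, Fin.sum_univ_four] <;>
      first
      | linear_combination (5*h^3 - 15*s*h^3 - 25*s*h^4 + 15*s^2*h^3 + 25*s^3*h^4 + 125*s^3*h^5 + 5*t*s*h^3 + 25*t*s*h^4 - 15*t*s^2*h^3 + 50*t*s^2*h^4 + 125*t*s^2*h^5 - 75*t*s^3*h^4 - 375*t*s^3*h^5 + 5*t^2*s^2*h^3 - 25*t^2*s^2*h^4 + 50*t^2*s^3*h^4 + 125*t^2*s^4*h^5 + 625*t^2*s^4*h^6) * hts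
      | linear_combination (-(5*h^3 - 15*s*h^3 - 25*s*h^4 + 15*s^2*h^3 + 25*s^3*h^4 + 125*s^3*h^5 + 5*t*s*h^3 + 25*t*s*h^4 - 15*t*s^2*h^3 + 50*t*s^2*h^4 + 125*t*s^2*h^5 - 75*t*s^3*h^4 - 375*t*s^3*h^5 + 5*t^2*s^2*h^3 - 25*t^2*s^2*h^4 + 50*t^2*s^3*h^4 + 125*t^2*s^4*h^5 + 625*t^2*s^4*h^6)) * hts

/-- The index bijection. -/
def ef : Fin 2 ⊕ Fin 2 → Fin 4
  | Sum.inl i => ⟨i.1, by omega⟩
  | Sum.inr i => ⟨2 + i.1, by omega⟩

/-- The index bijection, as an equivalence. -/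
noncomputable def e : Fin 2 ⊕ Fin 2 ≃ Fin 4 :=
  Equiv.ofBijective ef (by decide)

theorem e_apply (x : Fin 2 ⊕ Fin 2) : e x = ef x := rfl

theorem G4_eq (t s h : R) : Matrix.fromBlocks (Gf (s*h - h)) 0 0 (H2 (t - 1) (s - 1)) =
    (G4 t s h).submatrix e e := by
  ext1 i j
  rcases i with i | i <;> rcases j with j | j <;> fin_cases i <;> fin_cases j <;>
    simp [e_apply, ef, G4, Gf, H2]

theorem H4_eq (t s : R) :
    Matrix.fromBlocks (1 : Matrix (Fin 2) (Fin 2) R) 0 0 (H2 (t - 1) (s - 1)) =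
    (H4 t s).submatrix e e := by
  ext1 i j
  rcases i with i | i <;> rcases j with j | j <;> fin_cases i <;> fin_cases j <;>
    simp [e_apply, ef, H4, H2]

/-- The form of rank two plus `H2` is isometric to the standard form plus `H2`. -/
theorem stable {σ : R →+* R} {t s h : R} (hts : t * s = 1) (hs : σ s = t)
    (hh : σ h = s * h) :
    Isom σ (Matrix.fromBlocks (Gf (s*h - h)) 0 0 (H2 (t - 1) (s - 1)))
      (Matrix.fromBlocks (1 : Matrix (Fin 2) (Fin 2) R) 0 0 (H2 (t - 1) (s - 1))) := by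
  rw [G4_eq, H4_eq]
  have h1 : Isom σ (H4 t s) (G4 t s h) :=
    ⟨P s h, Pi s h, P_mul s h, mul_eq_one_comm.mp (P_mul s h), P_iso hts hs hh⟩
  exact (Isom.reindex σ e _).trans (h1.symm.trans (Isom.reindex σ e _).symm)

end generic

end Pool.Agent.H38.RK
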